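import Pool.Agent.Lib.MP_799fdf_al.Tx.Fin
import Pool.Agent.Lib.MP_799fdf_al.Tz.BuildB

/-! # The theorem with covers, in terms of `G` -/

set_option autoImplicit false

open scoped commutatorElement

namespace MP799fdf

namespace Cov

open Inn
open Cop (TT TA)
open Tw (TB TC)
open Tz (CZ Dg)

theorem card_rel {G : Type} [Group G] (τ : TT G) (B : Subgroup (TA G τ)) :
    Nat.card (B.map (QuotientGroup.mk' (TB G τ))) =
      (τ.1.1 ⊔ cen τ.1.1 τ.1.2 τ.2.nN).relIndex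
        (B.comap (QuotientGroup.mk' (cen τ.1.1 τ.1.2 τ.2.nN))) := by
  have hs := QuotientGroup.mk'_surjective (cen τ.1.1 τ.1.2 τ.2.nN)
  have h1 : B.map (QuotientGroup.mk' (TB G τ)) =
      (B.comap (QuotientGroup.mk' (cen τ.1.1 τ.1.2 τ.2.nN))).map
        ((QuotientGroup.mk' (TB G τ)).comp (QuotientGroup.mk' (cen τ.1.1 τ.1.2 τ.2.nN))) := by
    rw [← Subgroup.map_map, Subgroup.map_comap_eq_self_of_surjective hs]
  have h2 : ((QuotientGroup.mk' (TB G τ)).comp
      (QuotientGroup.mk' (cen τ.1.1 τ.1.2 τ.2.nN))).ker = τ.1.1 ⊔ cen τ.1.1 τ.1.2 τ.2.nN := by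
    rw [← MonoidHom.comap_ker, QuotientGroup.ker_mk']
    unfold TB
    rw [Subgroup.comap_map_eq, QuotientGroup.ker_mk']
  rw [h1, ← Subgroup.relIndex_ker, h2]

end Cov

end MP799fdf
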